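import Pool.Agent.Helper45_PGF.Stmts

/-!
Modules CNV1, CNV2 of squad PGF: from polynomials to roots and back.
-/

set_option autoImplicit false

open Polynomial

universe u v v₁ v₂

namespace Pool.Agent.PGF.H87

section prodinj

variable {K : Type*} [Field K]

/-- the polynomial with constant term one and inverse roots `S` -/
noncomputable def ipr (S : Multiset K) : K[X] := (S.map (fun r => 1 - C r * X)).prod

lemma ipr_natDegree (S : Multiset K) : (ipr S).natDegree ≤ Multiset.card S := by
  induction S using Multiset.induction_on with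
  | empty => simp [ipr]
  | cons a S ih =>
    unfold ipr at ih ⊢
    rw [Multiset.map_cons, Multiset.prod_cons, Multiset.card_cons, add_comm]
    refine natDegree_mul_le.trans (add_le_add ?_ ih)
    refine (natDegree_sub_le _ _).trans (max_le ?_ ?_)
    · simp
    · exact (natDegree_C_mul_le a X).trans natDegree_X_le

lemma ipr_coeff_zero (S : Multiset K) : (ipr S).coeff 0 = 1 := by
  induction S using Multiset.induction_on with
  | empty => simp [ipr]
  | cons a S ih =>
    unfold ipr at ih ⊢
    rw [Multiset.map_cons, Multiset.prod_cons, mul_coeff_zero, ih]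
    simp

lemma reflect_ipr (S : Multiset K) :
    (ipr S).reflect (Multiset.card S) = (S.map (fun r => X - C r)).prod := by
  induction S using Multiset.induction_on with
  | empty =>
    simp [ipr]
  | cons a S ih =>
    have h1 := ipr_natDegree S
    unfold ipr at ih h1 ⊢
    rw [Multiset.map_cons, Multiset.prod_cons, Multiset.card_cons, add_comm (Multiset.card S) 1,
      reflect_mul _ _ _ h1, ih, Multiset.map_cons, Multiset.prod_cons]
    · congr 1
      rw [reflect_sub, reflect_C_mul, reflect_one_X, reflect_one, pow_one, mul_one]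
    · refine (natDegree_sub_le _ _).trans (max_le ?_ ?_)
      · simp
      · exact (natDegree_C_mul_le a X).trans natDegree_X_le

/-- a product of linear factors with constant term one determines the roots. -/
theorem prodinj (S S' : Multiset K) (hc : Multiset.card S = Multiset.card S')
    (h : (S.map (fun r => 1 - C r * X)).prod = (S'.map (fun r => 1 - C r * X)).prod) :
    S = S' := by
  have h1 := reflect_ipr S
  have h2 := reflect_ipr S'
  have h3 : ipr S = ipr S' := h
  rw [h3, hc, h2] at h1
  have h4 := congrArg roots h1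
  rw [roots_multiset_prod_X_sub_C, roots_multiset_prod_X_sub_C] at h4
  exact h4.symm

lemma ipr_nsmul (n : ℕ) (S : Multiset K) : ipr (n • S) = ipr S ^ n := by
  unfold ipr
  rw [Multiset.map_nsmul, Multiset.prod_nsmul]

lemma eval_ipr (S : Multiset K) (x : K) (hx : x ≠ 0) :
    (S.map (fun r => x - r)).prod = x ^ Multiset.card S * (ipr S).eval x⁻¹ := by
  induction S using Multiset.induction_on with
  | empty => simp [ipr]
  | cons a S ih =>
    unfold ipr at ih ⊢
    rw [Multiset.map_cons, Multiset.prod_cons, Multiset.card_cons, Multiset.map_cons,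
      Multiset.prod_cons, ih, eval_mul]
    simp only [eval_sub, eval_one, eval_mul, eval_C, eval_X]
    rw [pow_succ]
    field_simp

lemma eval_prod_X_sub_C (S : Multiset K) (x : K) :
    ((S.map (fun r => X - C r)).prod).eval x = (S.map (fun r => x - r)).prod := by
  induction S using Multiset.induction_on with
  | empty => simp
  | cons a S ih =>
    rw [Multiset.map_cons, Multiset.prod_cons, eval_mul, ih, Multiset.map_cons, Multiset.prod_cons]
    simp

end prodinj

section hom

lemma aeval_scale {k K σ : Type*} [Field k] [Field K] [Algebra k K] (w : σ → ℕ)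
    (F : MvPolynomial σ k) (n : ℕ) (hF : F.IsWeightedHomogeneous w n) (c : K) (y : σ → K) :
    MvPolynomial.aeval (fun l => c ^ w l * y l) F = c ^ n * MvPolynomial.aeval y F := by
  rw [MvPolynomial.aeval_def, MvPolynomial.aeval_def, MvPolynomial.eval₂_eq,
    MvPolynomial.eval₂_eq, Finset.mul_sum]
  refine Finset.sum_congr rfl fun d hd => ?_
  have h1 : Finsupp.weight w d = n := hF (MvPolynomial.mem_support_iff.mp hd)
  have h2 : ∏ i ∈ d.support, (c ^ w i * y i) ^ d i = c ^ n * ∏ i ∈ d.support, y i ^ d i := by
    simp only [mul_pow]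
    rw [Finset.prod_mul_distrib]
    congr 1
    rw [← h1, Finsupp.weight_apply, Finsupp.sum, ← Finset.prod_pow_eq_pow_sum]
    refine Finset.prod_congr rfl fun i _ => ?_
    rw [smul_eq_mul, ← pow_mul, mul_comm]
  rw [h2]
  ring

lemma eval_aeval {k K σ : Type*} [Field k] [Field K] [Algebra k K] (F : MvPolynomial σ k)
    (f : σ → K[X]) (x : K) :
    (MvPolynomial.aeval f F).eval x = MvPolynomial.aeval (fun l => (f l).eval x) F := by
  have h : ((Polynomial.aeval x : K[X] →ₐ[K] K).restrictScalars k).comp (MvPolynomial.aeval f) =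
      MvPolynomial.aeval (fun l => (f l).eval x) := by
    apply MvPolynomial.algHom_ext
    intro l
    simp
  have h1 := DFunLike.congr_fun h F
  rw [← h1]
  rw [AlgHom.comp_apply, AlgHom.restrictScalars_apply, Polynomial.coe_aeval_eq_eval]

lemma eq_zero_of_ne {K : Type*} [Field K] [Infinite K] (p : K[X])
    (h : ∀ x : K, x ≠ 0 → p.eval x = 0) : p = 0 := by
  have h1 : p * X = 0 := by
    refine Polynomial.funext fun x => ?_
    rw [eval_mul, eval_X, eval_zero]
    by_cases hx : x = 0
    · rw [hx, mul_zero]
    · rw [h x hx, zero_mul]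
  rcases mul_eq_zero.mp h1 with h2 | h2
  · exact h2
  · exact absurd h2 X_ne_zero

/-- the relation between the equation for arcs and the equation for roots. -/
lemma key {k K σ : Type*} [Field k] [Field K] [Algebra k K] (w : σ → ℕ) (e : ℕ) (z : σ → k)
    (F : MvPolynomial σ k) (n : ℕ) (hF : F.IsWeightedHomogeneous w n) (S : σ → Multiset K)
    (hS : ∀ l, Multiset.card (S l) = e * w l) (x : K) (hx : x ≠ 0) :
    MvPolynomial.aeval (fun l => algebraMap k K (z l) * ((S l).map (fun r => x - r)).prod) F =
      (x ^ e) ^ n *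
        (MvPolynomial.aeval (fun l => C (algebraMap k K (z l)) * ipr (S l)) F).eval x⁻¹ := by
  rw [eval_aeval, ← aeval_scale w F n hF]
  congr 2
  funext l
  rw [eval_ipr _ _ hx, hS, pow_mul, eval_mul, eval_C]
  ring

end hom

/-- CNV1 -/
theorem cnv1 : CNV1Stmt.{u, v, v₂} := by
  intro k K σ _ _ _ _ w J z e p hJ hp
  obtain ⟨hp0, hpd, hpF⟩ := hp
  haveI : Infinite K := IsAlgClosed.instInfinite
  have hS : ∀ l, ∃ S : Multiset K, Multiset.card S = e * w l ∧ p l = ipr S := by
    intro l
    set q := (p l).reflect (e * w l) with hq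
    have hqc : q.coeff (e * w l) = 1 := by
      rw [hq, coeff_reflect, revAt_le le_rfl, Nat.sub_self, hp0]
    have hqd : q.natDegree = e * w l := by
      refine le_antisymm ?_ (le_natDegree_of_ne_zero (by rw [hqc]; exact one_ne_zero))
      exact natDegree_reflect_le.trans (max_le le_rfl (hpd l))
    have hqm : q.Monic := by
      rw [Monic, leadingCoeff, hqd, hqc]
    have hsp : q.Splits := IsAlgClosed.splits q
    have hroots : q = (q.roots.map (fun r => X - C r)).prod := hsp.eq_prod_roots_of_monic hqm
    have hcard : Multiset.card q.roots = e * w l := by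
      rw [← hqd]
      exact hsp.natDegree_eq_card_roots.symm
    refine ⟨q.roots, hcard, ?_⟩
    have h1 := reflect_ipr q.roots
    rw [← hroots, hcard, hq] at h1
    have h2 := congrArg (reflect (e * w l)) h1
    rw [reflect_reflect, reflect_reflect] at h2
    exact h2.symm
  choose S hSc hSp using hS
  refine ⟨S, ⟨hSc, ?_⟩, hSp, ?_⟩
  · intro F hF x
    obtain ⟨n, hn⟩ := hJ F hF
    have h1 : ∀ x : K, x ≠ 0 → MvPolynomial.aeval
        (fun l => algebraMap k K (z l) * ((S l).map (fun r => x - r)).prod) F = 0 := by
      intro x hx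
      rw [key w e z F n hn S hSc x hx]
      have h2 : (fun l => C (algebraMap k K (z l)) * ipr (S l)) =
          fun l => C (algebraMap k K (z l)) * p l := by
        funext l
        rw [← hSp]
      rw [h2, hpF F hF, eval_zero, mul_zero]
    set H : K[X] := MvPolynomial.aeval
      (fun l => C (algebraMap k K (z l)) * ((S l).map (fun r => X - C r)).prod) F with hH
    have h2 : ∀ x : K, H.eval x = MvPolynomial.aeval
        (fun l => algebraMap k K (z l) * ((S l).map (fun r => x - r)).prod) F := by
      intro x
      rw [hH, eval_aeval]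
      congr 2
      funext l
      rw [eval_mul, eval_C, eval_prod_X_sub_C]
    have h3 : H = 0 := eq_zero_of_ne H fun x hx => by rw [h2, h1 x hx]
    rw [← h2, h3, eval_zero]
  · intro hc l l'
    rw [hSp, hSp, ← ipr_nsmul, ← ipr_nsmul, hc l l']

/-- CNV2 -/
theorem cnv2 : CNV2Stmt.{u, v, v₂} := by
  intro k K σ _ _ _ _ _ w J z e S hJ hM hc
  classical
  obtain ⟨hSc, hSF⟩ := hM
  haveI : Infinite k := IsAlgClosed.instInfinite
  haveI : Infinite K := Infinite.of_injective (algebraMap k K) (algebraMap k K).injective
  let s := Σ l : σ, Fin (e * w l)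
  let ε : MvPolynomial s k →ₐ[k] K := MvPolynomial.aeval fun q => (ipr (S q.1)).coeff (q.2.1 + 1)
  let P : σ → (MvPolynomial s k)[X] := fun l =>
    PGE.arcP 1 (e * w l) (fun q => MvPolynomial.X (⟨l, q⟩ : s))
  have hPε : ∀ l, (P l).map (ε : MvPolynomial s k →+* K) = ipr (S l) := by
    intro l
    have hd : (ipr (S l)).natDegree ≤ e * w l := by
      rw [← hSc]
      exact ipr_natDegree _
    simp only [P]
    rw [PGE.arcP_map]
    ext n
    rcases n with _ | n
    · rw [PGE.arcP_coeff_zero, ipr_coeff_zero, map_one]
    · by_cases hn : n < e * w l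
      · have h1 := PGE.arcP_coeff ((ε : MvPolynomial s k →+* K) 1) (e * w l)
          (fun q => (ε : MvPolynomial s k →+* K) (MvPolynomial.X (⟨l, q⟩ : s))) ⟨n, hn⟩
        simp only at h1
        rw [h1]
        exact MvPolynomial.aeval_X _ _
      · rw [coeff_eq_zero_of_natDegree_lt (lt_of_le_of_lt (PGE.arcP_natDegree _ _ _) (by omega)),
          coeff_eq_zero_of_natDegree_lt (lt_of_le_of_lt hd (by omega))]
  obtain ⟨l, l', hll⟩ : ∃ l l', ipr (S l) ^ w l' ≠ ipr (S l') ^ w l := by
    by_contra hno
    push Not at hno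
    refine hc fun l l' => ?_
    refine prodinj _ _ ?_ ?_
    · rw [Multiset.card_nsmul, Multiset.card_nsmul, hSc, hSc]
      ring
    · have h1 := hno l l'
      rw [← ipr_nsmul, ← ipr_nsmul] at h1
      exact h1
  have hΔ : ((P l ^ w l' - P l' ^ w l).map (ε : MvPolynomial s k →+* K)) ≠ 0 := by
    rw [Polynomial.map_sub, Polynomial.map_pow, Polynomial.map_pow, hPε, hPε]
    exact sub_ne_zero.mpr hll
  obtain ⟨n₀, hn₀⟩ : ∃ n, ((P l ^ w l' - P l' ^ w l).map (ε : MvPolynomial s k →+* K)).coeff n ≠
      0 := by
    by_contra hno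
    push Not at hno
    exact hΔ (Polynomial.ext fun n => by rw [hno n, coeff_zero])
  rw [coeff_map] at hn₀
  obtain ⟨ζ, hζ, hζT⟩ := PGE.exists_point (ε : MvPolynomial s k →+* K)
    {(P l ^ w l' - P l' ^ w l).coeff n₀} (by
      intro p hp
      rw [Finset.mem_singleton] at hp
      rw [hp]
      exact hn₀)
  let φ : MvPolynomial s k →ₐ[k] k := MvPolynomial.aeval ζ
  have hφ : ∀ p, (ε : MvPolynomial s k →+* K) p = 0 → φ p = 0 := by
    intro p hp
    have h1 := hζ p hp
    simp only [φ]
    rw [MvPolynomial.aeval_eq_eval]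
    exact h1
  have hφT : φ ((P l ^ w l' - P l' ^ w l).coeff n₀) ≠ 0 := by
    have h1 := hζT _ (Finset.mem_singleton_self _)
    simp only [φ]
    rw [MvPolynomial.aeval_eq_eval]
    exact h1
  refine ⟨fun l => (P l).map (φ : MvPolynomial s k →+* k), ⟨?_, ?_, ?_⟩, ?_⟩
  · intro l
    simp only [P]
    rw [PGE.arcP_map, PGE.arcP_coeff_zero, map_one]
  · intro l
    simp only [P]
    rw [PGE.arcP_map]
    exact PGE.arcP_natDegree _ _ _
  · intro F hF
    obtain ⟨n, hn⟩ := hJ F hF
    set G : (MvPolynomial s k)[X] :=
      MvPolynomial.aeval (fun l => C (algebraMap k (MvPolynomial s k) (z l)) * P l) F with hG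
    have h1 : G.map (ε : MvPolynomial s k →+* K) = 0 := by
      rw [hG, PGE.aeval_map]
      have h2 : (fun l => (C (algebraMap k (MvPolynomial s k) (z l)) * P l).map
          (ε : MvPolynomial s k →+* K)) = fun l => C (algebraMap k K (z l)) * ipr (S l) := by
        funext l
        rw [Polynomial.map_mul, map_C, hPε, RingHom.coe_coe, AlgHom.commutes]
      rw [h2]
      refine eq_zero_of_ne _ fun x hx => ?_
      have h3 := key w e z F n hn S hSc x⁻¹ (inv_ne_zero hx)
      rw [hSF F hF, inv_inv] at h3
      rcases mul_eq_zero.mp h3.symm with h4 | h4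
      · exact absurd h4 (pow_ne_zero _ (pow_ne_zero _ (inv_ne_zero hx)))
      · exact h4
    have h2 : G.map (φ : MvPolynomial s k →+* k) = 0 := by
      ext j
      rw [coeff_map, coeff_zero]
      refine hφ _ ?_
      have h3 := congrArg (fun p => p.coeff j) h1
      rw [coeff_map, coeff_zero] at h3
      exact h3
    rw [hG, PGE.aeval_map] at h2
    rw [← h2]
    congr 2
    funext l
    rw [Polynomial.map_mul, map_C, RingHom.coe_coe, AlgHom.commutes]
  · intro hcon
    refine hφT ?_
    have h1 := hcon l l'
    simp only at h1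
    rw [← Polynomial.map_pow, ← Polynomial.map_pow, ← sub_eq_zero, ← Polynomial.map_sub] at h1
    have h2 := congrArg (fun p => p.coeff n₀) h1
    rw [coeff_map, coeff_zero] at h2
    exact h2

end Pool.Agent.PGF.H87
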