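import Pool.Agent.Helper45_PGF.Stmts

/-!
Module VAL of squad PGF: a valuation ring which induces a specialization.
-/

set_option autoImplicit false

open Polynomial

universe u v

namespace Pool.Agent.PGF.H87

/-- A specialization is induced by a valuation ring. -/
theorem exists_val {B K k : Type*} [CommRing B] [Field K] [CommRing k] [IsDomain k] (f : B →+* K)
    (g : B →+* k) (h : ∀ b, f b = 0 → g b = 0) :
    ∃ O : ValuationSubring K, (∀ b, f b ∈ O) ∧ ∀ b, g b = 0 → O.valuation (f b) < 1 := by
  classical
  have hp : (RingHom.ker g).IsPrime := RingHom.ker_isPrime g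
  have hu : ∀ y : (RingHom.ker g).primeCompl, IsUnit (f y) := by
    rintro ⟨y, hy⟩
    refine IsUnit.mk0 _ fun h1 => hy ?_
    exact h y h1
  set L := Localization.AtPrime (RingHom.ker g) with hL
  let F : L →+* K := IsLocalization.lift (M := (RingHom.ker g).primeCompl) hu
  have hF : ∀ b, F (algebraMap B L b) = f b := fun b =>
    IsLocalization.lift_eq (M := (RingHom.ker g).primeCompl) hu b
  obtain ⟨O, hO, hloc⟩ := IsLocalRing.exists_factor_valuationRing (R := L) F
  refine ⟨O, fun b => ?_, fun b hb => ?_⟩
  · rw [← hF]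
    exact hO _
  · have h1 : ¬ IsUnit (algebraMap B L b) := by
      rw [IsLocalization.AtPrime.isUnit_to_map_iff L (RingHom.ker g)]
      intro h2
      exact h2 hb
    have h2 : ¬ IsUnit ((F.codRestrict O.toSubring hO) (algebraMap B L b)) := fun h3 =>
      h1 (hloc.map_nonunit _ h3)
    have h3 : (⟨f b, by rw [← hF]; exact hO _⟩ : O) ∈ IsLocalRing.maximalIdeal O := by
      rw [IsLocalRing.mem_maximalIdeal, mem_nonunits_iff]
      intro h4
      refine h2 ?_
      have h5 : (F.codRestrict O.toSubring hO) (algebraMap B L b) =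
          (⟨f b, by rw [← hF]; exact hO _⟩ : O) := by
        apply Subtype.ext
        exact hF b
      rw [h5]
      exact h4
    exact (ValuationSubring.valuation_lt_one_iff O _).mp h3

/-- VAL -/
theorem val : VALStmt.{u, v} := by
  intro k E _ _ _ A P Q hS
  let K := AlgebraicClosure (FractionRing E[X])
  let i : E[X] →ₐ[k] K := IsScalarTower.toAlgHom k E[X] K
  have hi : Function.Injective i := by
    have h1 : Function.Injective (algebraMap E[X] K) := by
      rw [IsScalarTower.algebraMap_eq E[X] (FractionRing E[X]) K, RingHom.coe_comp]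
      exact (algebraMap (FractionRing E[X]) K).injective.comp
        (IsFractionRing.injective E[X] (FractionRing E[X]))
    exact h1
  let f₀ : MvPolynomial (A × ℕ) k →ₐ[k] E[X] :=
    MvPolynomial.aeval (fun s : A × ℕ => (C ((P s.1).coeff s.2) * X ^ s.2 : E[X]))
  let g : MvPolynomial (A × ℕ) k →ₐ[k] k := MvPolynomial.aeval (fun s : A × ℕ => (Q s.1).coeff s.2)
  obtain ⟨O, hO1, hO2⟩ := exists_val ((i.comp f₀ : MvPolynomial (A × ℕ) k →ₐ[k] K) :
    MvPolynomial (A × ℕ) k →+* K) (g : MvPolynomial (A × ℕ) k →+* k) (by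
      intro b hb
      refine hS b (hi ?_)
      rw [map_zero]
      exact hb)
  refine ⟨K, inferInstance, inferInstance, inferInstance, i, O, hi, ?_, ?_⟩
  · intro c
    have h1 := hO1 (MvPolynomial.C c)
    have h2 : ((i.comp f₀ : MvPolynomial (A × ℕ) k →ₐ[k] K) :
        MvPolynomial (A × ℕ) k →+* K) (MvPolynomial.C c) = algebraMap k K c := by
      rw [RingHom.coe_coe]
      exact AlgHom.commutes _ c
    rwa [h2] at h1
  · intro α j
    have hX : ((i.comp f₀ : MvPolynomial (A × ℕ) k →ₐ[k] K) :
        MvPolynomial (A × ℕ) k →+* K) (MvPolynomial.X (α, j)) =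
          i (C ((P α).coeff j) * X ^ j) := by
      rw [RingHom.coe_coe, AlgHom.comp_apply]
      congr 1
      exact MvPolynomial.aeval_X _ _
    have hC : ∀ c, ((i.comp f₀ : MvPolynomial (A × ℕ) k →ₐ[k] K) :
        MvPolynomial (A × ℕ) k →+* K) (MvPolynomial.C c) = algebraMap k K c := by
      intro c
      rw [RingHom.coe_coe]
      exact AlgHom.commutes _ c
    refine ⟨?_, ?_⟩
    · rw [← hX]
      exact hO1 _
    · have h1 := hO2 (MvPolynomial.X (α, j) - MvPolynomial.C ((Q α).coeff j)) (by
        rw [map_sub, RingHom.coe_coe]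
        have h2 : g (MvPolynomial.X (α, j)) = (Q α).coeff j := MvPolynomial.aeval_X _ _
        have h3 : g (MvPolynomial.C ((Q α).coeff j)) = (Q α).coeff j := AlgHom.commutes _ _
        rw [h2, h3, sub_self])
      rw [map_sub, hX, hC] at h1
      exact h1

end Pool.Agent.PGF.H87
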